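import Pool.Agent.Helper88_SD.StM2

/-!
Squad SD, module M_LN1: first part of the link between the algebra `W 0` and the model.
-/

set_option maxSynthPendingDepth 3

namespace Pool.Agent.SD.H19

open MeasureTheory Complex Filter Topology Pool.Agent.H16Iso
open scoped NNReal InnerProductSpace ComplexConjugate

/-- the function of a sequence and the value of the double series -/
theorem fn_of_hol {w : W 0} {q : L2} (h : Hol w q) (z : ℂ) : fn q z = evf w z := by
  unfold fn evf
  have hinj : Function.Injective (fun n : ℕ => (n, 0) : ℕ → ℕ × ℕ) := fun a b hab => by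
    simpa using congrArg Prod.fst hab
  rw [← hinj.tsum_eq (f := fun p : ℕ × ℕ => (w.co p : ℂ) * mon p z)]
  · refine tsum_congr fun n => ?_
    rw [h.eq n]
    simp [mon]
  · intro p hp
    rw [Function.mem_support] at hp
    by_cases h2 : p.2 = 0
    · exact ⟨p.1, Prod.ext rfl h2.symm⟩
    · exact absurd (by rw [h.hol p h2]; simp) hp

theorem hol_one : Hol (1 : W 0) one := by
  constructor
  · intro p hp
    rw [W.one_def, W.co_of, if_neg]
    rintro rfl
    exact hp rfl
  · intro n
    rw [W.one_def, W.co_of]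
    by_cases hn : n = 0
    · subst hn
      simp [one]
    · rw [if_neg (by intro h; exact hn (congrArg Prod.fst h))]
      simp [one, hn]

theorem rf_mul_real {f g : W 0} {z : ℂ} (hz : ‖z‖ ≤ 1) (hf : (evf f z).im = 0) :
    rf (f * g) z = (evf f z).re * rf g z := by
  unfold rf
  rw [evf_mul hz, Complex.mul_re, Complex.mul_im, hf]
  ring

/-- the weight as an element of the algebra -/
noncomputable def om (w : Fin 4 → W 0) : W 0 :=
  (1 / 2 : ℝ) • (w 0 * w 1 * W.st 0 (w 2 * w 3) + W.st 0 (w 0 * w 1) * (w 2 * w 3))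

theorem evf_om (w : Fin 4 → W 0) {z : ℂ} (hz : ‖z‖ ≤ 1) :
    evf (om w) z = ((evf (w 0) z * evf (w 1) z * conj (evf (w 2) z * evf (w 3) z)).re : ℝ) := by
  unfold om
  rw [evf_smul hz, evf_add hz, evf_mul hz, evf_mul hz, evf_mul hz, evf_st hz, evf_st hz,
    evf_mul hz, evf_mul hz]
  set a := evf (w 0) z * evf (w 1) z
  set b := evf (w 2) z * evf (w 3) z
  apply Complex.ext
  · simp only [Complex.mul_re, Complex.mul_im, Complex.add_re, Complex.add_im, Complex.conj_re,
      Complex.conj_im, Complex.ofReal_re, Complex.ofReal_im]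
    ring
  · simp only [Complex.mul_re, Complex.mul_im, Complex.add_re, Complex.add_im, Complex.conj_re,
      Complex.conj_im, Complex.ofReal_re, Complex.ofReal_im]
    ring

theorem ln1 (hMean : MeanStatement) (hGlz : GlzStatement) (hEm : EmStatement) :
    Lnk1Statement := by
  intro H _ _ _ M
  obtain ⟨hEj, -, -⟩ := hEm H M
  -- first formula
  have inner_j : ∀ (f : W 0) (v : LZ DD),
      ⟪M.io 0 f, M.j v⟫_ℝ = ∫ z in DD, rf f z * ((v : LipC) : ℂ → ℝ) z := by
    intro f v
    show ⟪ContinuousLinearMap.adjoint M.E (rfL 0 f), M.j v⟫_ℝ = _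
    rw [ContinuousLinearMap.adjoint_inner_left, hEj, inner_LD (rfL_coe f) (valL_coe v)]
  have ext_j : ∀ x y : H, (∀ v : LZ DD, ⟪x, M.j v⟫_ℝ = ⟪y, M.j v⟫_ℝ) → x = y := by
    intro x y h
    refine ext_inner_right ℝ fun v => ?_
    have hc : (fun v : H => ⟪x, v⟫_ℝ) = fun v : H => ⟪y, v⟫_ℝ :=
      M.j_dense.equalizer (continuous_const.inner continuous_id)
        (continuous_const.inner continuous_id) (funext fun v => h v)
    exact congrFun hc v
  -- representation of `io g`
  have io_eq : ∀ g : W 0, ∃ u : LZ DD, M.io 0 g = M.j u ∧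
      ∀ z ∈ DD, ((u : LipC) : ℂ → ℝ) z = rf (W.G 0 g) z := by
    intro g
    obtain ⟨u, hu1, hu2⟩ := hGlz g
    refine ⟨u, ext_j _ _ fun v => ?_, hu1⟩
    rw [inner_j, M.j_inner, hu2]
  have inner_io : ∀ f g : W 0,
      ⟪M.io 0 f, M.io 0 g⟫_ℝ = Real.pi * W.m0 0 (W.st 0 f * W.G 0 g) := by
    intro f g
    obtain ⟨u, hu1, hu2⟩ := io_eq g
    rw [hu1, inner_j, ← hMean.2.2]
    refine setIntegral_congr_fun Metric.isOpen_ball.measurableSet fun z hz => ?_
    show rf f z * ((u : LipC) : ℂ → ℝ) z = _
    rw [hu2 z hz]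
  have T4_io : ∀ (w : Fin 4 → W 0) (q : Fin 4 → L2), (∀ i, Hol (w i) (q i)) → ∀ g : W 0,
      M.T4 q (M.io 0 g) = M.io 0 (om w * W.G 0 g) := by
    intro w q hq g
    obtain ⟨u, hu1, hu2⟩ := io_eq g
    refine ext_j _ _ fun v => ?_
    rw [hu1, M.T4_apply, inner_j]
    refine setIntegral_congr_fun Metric.isOpen_ball.measurableSet fun z hz => ?_
    show _ * (((u : LipC) : ℂ → ℝ) z * ((v : LipC) : ℂ → ℝ) z) = _
    have him : (evf (om w) z).im = 0 := by rw [evf_om w (DD_le hz), Complex.ofReal_im]
    rw [hu2 z hz, rf_mul_real (DD_le hz) him, evf_om w (DD_le hz), Complex.ofReal_re,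
      fn_of_hol (hq 0), fn_of_hol (hq 1), fn_of_hol (hq 2), fn_of_hol (hq 3)]
    ring
  refine ⟨inner_j, inner_io, fun w q hq g => T4_io w q hq g, ?_, ?_, ?_⟩
  · intro w q hq g
    show M.T4 (fun _ => q) (M.io 0 g) = _
    rw [T4_io (fun _ => w) (fun _ => q) (fun _ => hq) g]
    congr 2
    show (1 / 2 : ℝ) • (w * w * W.st 0 (w * w) + W.st 0 (w * w) * (w * w)) = _
    rw [mul_comm (W.st 0 (w * w)) (w * w), ← two_smul ℝ, smul_smul]
    norm_num
  · intro g
    show M.T4 (fun _ => one) (M.io 0 g) = _
    rw [T4_io (fun _ => 1) (fun _ => one) (fun _ => hol_one) g]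
    congr 1
    show ((1 / 2 : ℝ) • (1 * 1 * W.st 0 (1 * 1) + W.st 0 (1 * 1) * (1 * 1))) * W.G 0 g = _
    rw [mul_one, W.st_one, mul_one, ← two_smul ℝ, smul_smul]
    norm_num
  · intro w κ hw g
    have key : ∀ i : Fin 4, M.T4 (Function.update (fun _ => one) i κ) (M.io 0 g) =
        M.io 0 (((1 / 2 : ℝ) • (w + W.st 0 w)) * W.G 0 g) := by
      intro i
      rw [T4_io (Function.update (fun _ => 1) i w) (Function.update (fun _ => one) i κ) ?_ g]
      · congr 2
        unfold om
        fin_cases i
        · simp [Function.update, W.st_one]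
        · simp [Function.update, W.st_one]
        · simp [Function.update, W.st_one, add_comm]
        · simp [Function.update, W.st_one, add_comm]
      · intro k
        by_cases hk : k = i
        · subst hk
          rw [Function.update_self, Function.update_self]
          exact hw
        · rw [Function.update_of_ne hk, Function.update_of_ne hk]
          exact hol_one
    show (M.T4 (Function.update (fun _ => one) 0 κ) + M.T4 (Function.update (fun _ => one) 1 κ) +
      M.T4 (Function.update (fun _ => one) 2 κ) + M.T4 (Function.update (fun _ => one) 3 κ))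
      (M.io 0 g) = _
    rw [add_apply, add_apply,
      add_apply, key, key, key, key, ← map_add, ← map_add, ← map_add]
    congr 1
    rw [← add_mul, ← add_mul, ← add_mul]
    congr 1
    module

end Pool.Agent.SD.H19
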