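import Pool.Agent.Helper88_SD.StM2

/-!
Squad SD, module M_SPC: all eigenvectors of the disc.
-/

set_option maxSynthPendingDepth 3

namespace Pool.Agent.SD.H19

open MeasureTheory Complex Filter Topology Pool.Agent.H16Iso
open scoped NNReal InnerProductSpace ComplexConjugate

/-- the harmonic monomial of the harmonic of `p` -/
def eh (p : ℕ × ℕ) : ℕ × ℕ := (p.1 - p.2, p.2 - p.1)

theorem eh_add (p : ℕ × ℕ) (n : ℕ) : eh (p + (n, n)) = eh p := by
  simp only [eh, Prod.fst_add, Prod.snd_add]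
  ext
  · show p.1 + n - (p.2 + n) = p.1 - p.2
    omega
  · show p.2 + n - (p.1 + n) = p.2 - p.1
    omega

theorem eh_cases (p : ℕ × ℕ) : eh p = (hd p, 0) ∨ eh p = (0, hd p) := by
  rcases le_total p.2 p.1 with h | h
  · left
    simp only [eh, hd]
    ext <;> simp <;> omega
  · right
    simp only [eh, hd]
    ext <;> simp <;> omega

theorem mem_span_of_hasSum {e : W 0} {c : ℕ → ℝ} {f : ℕ → W 0} {s : W 0}
    (h : HasSum (fun n => c n • f n) s) (T : W 0 →L[ℝ] W 0)
    (hT : ∀ n, T (f n) ∈ Submodule.span ℝ {e}) : T s ∈ Submodule.span ℝ {e} := by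
  have hcl : IsClosed ((Submodule.span ℝ {e} : Submodule ℝ (W 0)) : Set (W 0)) :=
    Submodule.closed_of_finiteDimensional _
  have h1 := h.mapL T
  refine hcl.mem_of_tendsto h1 (Eventually.of_forall fun s => ?_)
  refine Submodule.sum_mem _ fun n _ => ?_
  rw [map_smul]
  exact Submodule.smul_mem _ _ (hT n)

theorem Hb_E_mem (x : ℝ) (p : ℕ × ℕ) :
    W.Hb 0 (W.E 0 x (W.of p)) ∈ Submodule.span ℝ {(W.of (eh p) : W 0)} := by
  refine mem_span_of_hasSum (W.E_of (r := 0) x p) (W.Hb 0) fun n => ?_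
  rw [W.Hb_of]
  change (W.of (eh (p + (n, n))) : W 0) ∈ _
  rw [eh_add]
  exact Submodule.mem_span_singleton_self _

theorem Hb_E_E_mem (x : ℝ) (p : ℕ × ℕ) :
    W.Hb 0 (W.E 0 x (W.E 0 x (W.of p))) ∈ Submodule.span ℝ {(W.of (eh p) : W 0)} := by
  refine mem_span_of_hasSum (W.E_of (r := 0) x p) (W.Hb 0 ∘L W.E 0 x) fun n => ?_
  rw [ContinuousLinearMap.comp_apply]
  have h := Hb_E_mem x (p + (n, n))
  rwa [eh_add] at h

/-- the range of `1 - x² G` -/
theorem one_sub_G_E (x : ℝ) (g : W 0) :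
    W.E 0 x g - x ^ 2 • W.G 0 (W.E 0 x g) = g - W.Hb 0 g + W.Hb 0 (W.E 0 x g) := by
  have h := W.E_right (r := 0) x g
  have h1 : x ^ 2 • W.V 0 (W.E 0 x g) = g - W.E 0 x g := by
    rw [eq_sub_iff_add_eq, add_comm]
    exact h
  rw [W.G_apply, smul_sub, ← map_smul, h1, map_sub]
  abel

section

variable {H : Type} [NormedAddCommGroup H] [InnerProductSpace ℝ H] [CompleteSpace H] {M : Mdl H}

theorem inner_eq_zero_of_range (h1 : Lnk1 M) {x : ℝ} (hx : 0 < x) {w : H}
    (hw : M.T one w = (x ^ 2)⁻¹ • w) (hs : ∀ u v : H, ⟪M.T one u, v⟫_ℝ = ⟪u, M.T one v⟫_ℝ)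
    (f : W 0) : ⟪M.io 0 (f - x ^ 2 • W.G 0 f), w⟫_ℝ = 0 := by
  rw [map_sub, map_smul, ← h1.T1_io, inner_sub_left, real_inner_smul_left, hs, hw,
    real_inner_smul_right]
  have : x ^ 2 ≠ 0 := by positivity
  field_simp
  ring

end

theorem spc (hL1 : Lnk1Statement) (hL3 : Lnk3Statement) (hEig : EigStatement) :
    SpcStatement := by
  intro H _ _ _ M x hx w hw
  have h1 := hL1 H M
  have h3 := hL3 H M
  obtain ⟨hE, -, -⟩ := hEig H M x hx
  have hs : ∀ u v : H, ⟪M.T one u, v⟫_ℝ = ⟪u, M.T one v⟫_ℝ := M.T4_symm _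
  have hx2 : (x ^ 2 : ℝ) ≠ 0 := by positivity
  set S : Submodule ℝ H := Submodule.span ℝ {v : H | ∃ l, jj x l 1 = 0 ∧
        (v = M.io 0 (evc x l) ∨ v = M.io 0 (evs x l))} with hS
  -- the eigenspace
  set F : Submodule ℝ H := Module.End.eigenspace ((M.T one : H →L[ℝ] H) : H →ₗ[ℝ] H) (x ^ 2)⁻¹
    with hF
  have hFfin : FiniteDimensional ℝ F :=
    ContinuousLinearMap.finite_dimensional_eigenspace (T := M.T one) (M.T4_cpt _) _
      (inv_ne_zero hx2)
  have hSF : S ≤ F := by
    rw [hS, Submodule.span_le]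
    rintro v ⟨l, hl, rfl | rfl⟩
    · rw [SetLike.mem_coe, hF, Module.End.mem_eigenspace_iff]
      exact (hE l hl).1
    · rw [SetLike.mem_coe, hF, Module.End.mem_eigenspace_iff]
      exact (hE l hl).2.1
  have hSfin : FiniteDimensional ℝ S := Submodule.finiteDimensional_of_le hSF
  -- decomposition
  obtain ⟨s, hsS, w', hw', hsum⟩ : ∃ s ∈ S, ∃ w' ∈ Sᗮ, w = s + w' :=
    S.exists_add_mem_mem_orthogonal w
  have hw'eig : M.T one w' = (x ^ 2)⁻¹ • w' := by
    have hsE : M.T one s = (x ^ 2)⁻¹ • s := by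
      have := hSF hsS
      rw [hF, Module.End.mem_eigenspace_iff] at this
      exact this
    have e : w' = w - s := by rw [hsum]; abel
    rw [e, map_sub, hw, hsE, smul_sub]
  have hran : ∀ f : W 0, ⟪M.io 0 (f - x ^ 2 • W.G 0 f), w'⟫_ℝ = 0 :=
    fun f => inner_eq_zero_of_range h1 hx hw'eig hs f
  suffices hz : w' = 0 by
    rw [hsum, hz, add_zero]
    exact hsS
  refine h3.dense w' fun p => ?_
  set e : W 0 := W.of (eh p) with he
  have hHbp : W.Hb 0 (W.of p) = e := W.Hb_of p
  have hHbe : W.Hb 0 e = e := by rw [← hHbp, W.Hb_Hb]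
  have hHbEe : W.Hb 0 (W.E 0 x e) = jj x (hd p) 1 • e := by
    rcases eh_cases p with h | h
    · rw [he, h, W.Hb_E_of_an]
    · rw [he, h, W.Hb_E_of_co]
  obtain ⟨β, hβ⟩ := Submodule.mem_span_singleton.1 (Hb_E_mem x p)
  by_cases hj : jj x (hd p) 1 = 0
  · -- the exceptional harmonics
    set v : W 0 := W.E 0 x e with hv
    have hHbv : W.Hb 0 v = 0 := by rw [hv, hHbEe, hj, zero_smul]
    have hGv : x ^ 2 • W.G 0 v = v := by
      have h := one_sub_G_E x e
      rw [hHbe, sub_self, zero_add, ← hv, hHbv] at h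
      exact (sub_eq_zero.1 h).symm
    have heh : eh (eh p) = eh p := by
      simp only [eh]
      ext <;> simp <;> omega
    obtain ⟨δ, hδ⟩ : ∃ δ : ℝ, δ • e = W.Hb 0 (W.E 0 x v) := by
      have h := Hb_E_E_mem x (eh p)
      rw [heh] at h
      exact Submodule.mem_span_singleton.1 h
    have hTv : M.T one (M.io 0 v) = (x ^ 2)⁻¹ • M.io 0 v := by
      rw [h1.T1_io, eq_inv_smul_iff₀ hx2, ← map_smul, hGv]
    have hvne : v ≠ 0 := by
      intro h0
      have h := W.E_right (r := 0) x e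
      rw [← hv, h0, map_zero, smul_zero, add_zero] at h
      have h' := congrArg (fun f => W.co f (eh p)) h
      simp only [he, W.co_of, W.co_zero, if_true] at h'
      exact zero_ne_one h'
    have hδne : δ ≠ 0 := by
      intro h0
      have h := one_sub_G_E x v
      rw [hHbv, sub_zero, ← hδ, h0, zero_smul, add_zero] at h
      have h2 := inner_eq_zero_of_range h1 hx hTv hs (W.E 0 x v)
      rw [h, inner_self_eq_zero] at h2
      exact hvne (h3.inj v h2)
    -- `v` belongs to the span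
    have hvS : M.io 0 v ∈ S := by
      have hc : M.io 0 (evc x (hd p)) ∈ S := Submodule.subset_span ⟨hd p, hj, Or.inl rfl⟩
      have hd' : M.io 0 (evs x (hd p)) ∈ S := Submodule.subset_span ⟨hd p, hj, Or.inr rfl⟩
      rcases eh_cases p with h | h
      · have e1 : v = (1 / 2 : ℝ) • (evc x (hd p) + evs x (hd p)) := by
          rw [hv, he, h, evc, evs, ← map_add]
          rw [← map_smul]
          congr 1
          module
        rw [e1, map_smul, map_add]
        exact Submodule.smul_mem _ _ (Submodule.add_mem _ hc hd')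
      · have e1 : v = (1 / 2 : ℝ) • (evc x (hd p) - evs x (hd p)) := by
          rw [hv, he, h, evc, evs, ← map_sub]
          rw [← map_smul]
          congr 1
          module
        rw [e1, map_smul, map_sub]
        exact Submodule.smul_mem _ _ (Submodule.sub_mem _ hc hd')
    have hvw : ⟪M.io 0 v, w'⟫_ℝ = 0 := (Submodule.mem_orthogonal _ _).1 hw' _ hvS
    set c : ℝ := (β - 1) / δ with hc
    have key : W.of p - c • v = W.E 0 x (W.of p - c • v)
        - x ^ 2 • W.G 0 (W.E 0 x (W.of p - c • v)) := by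
      rw [one_sub_G_E]
      rw [map_sub (W.E 0 x), map_sub (W.Hb 0), map_sub (W.Hb 0), map_smul (W.E 0 x), map_smul (W.Hb 0),
        map_smul (W.Hb 0), hHbp, hHbv, ← hβ, ← hδ, smul_zero, sub_zero, smul_smul]
      have : c * δ = β - 1 := by rw [hc]; field_simp
      rw [this]
      module
    have h4 := hran (W.E 0 x (W.of p - c • v))
    rw [← key, map_sub, map_smul, inner_sub_left, real_inner_smul_left, hvw, mul_zero,
      sub_zero] at h4
    exact h4
  · -- the regular harmonics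
    set c : ℝ := (1 - β) / jj x (hd p) 1 with hc
    have key : W.of p = W.E 0 x (W.of p + c • e)
        - x ^ 2 • W.G 0 (W.E 0 x (W.of p + c • e)) := by
      rw [one_sub_G_E]
      rw [map_add (W.E 0 x), map_add (W.Hb 0), map_add (W.Hb 0), map_smul (W.E 0 x), map_smul (W.Hb 0),
        map_smul (W.Hb 0), hHbp, hHbe, hHbEe, ← hβ, smul_smul]
      have : c * jj x (hd p) 1 = 1 - β := by rw [hc]; field_simp
      rw [this]
      module
    have h4 := hran (W.E 0 x (W.of p + c • e))
    rwa [← key] at h4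

end Pool.Agent.SD.H19
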